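import Mathlib
import Pool.Prelude.Def_F_c31e40fa
import Pool.Agent.N253.LS.Cov
import Pool.Agent.Y298.CD.Fin
import Pool.Agent.H712R2.MultibrotConnected

/-!
# Density of hyperbolicity near almost every boundary point, outside small pieces

Let `c₀` be a point of the Multibrot set `M_d` at which the critical value has a Lyapunov exponent
`χ > 0`; almost every external ray lands at such a point, with `χ = log d`. Put `E = d / (d - 1)`. A
parameter of `M_d` is called expanding if it satisfies the Collet-Eckmann condition (the derivatives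
of the iterates at the critical value grow exponentially) and its critical orbit stays away from the
critical point. Expanding parameters are limits of superattracting parameters. The other parameters of
`M_d`, together with all interior points of `M_d`, form the set `Rest`: it contains all components of
the interior, with or without attracting cycles, the parabolic, Siegel and Cremer parameters, the
infinitely renormalizable parameters, all parameters with a recurrent critical point, those with Julia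
sets of positive area.

For every `ε > 0` and all small `R`

* every connected subset of `Rest` which meets the disc `D(c₀, R)` has diameter at most
  `R ^ (E - ε)`; in particular this holds for the components of the interior of `M_d` which have no
  attracting cycles, if there are any;
* the parameters of `Rest` in `D(c₀, R)` are in the union of pairwise disjoint open sets of diameter
  at most `R ^ (E - ε)`, and all other parameters of `M_d ∩ D(c₀, R)` are limits of superattracting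
  parameters.

Method. A connected set of parameters in `D(c₀, R)` whose critical orbits enter the disc of radius
`R ^ τ` about the critical point, `τ < 1 / (d - 1)`, has diameter at most `R ^ (1 + τ - ε)`: the
entries are followed backwards, with expansion in the dynamical planes of all parameters of
`D(c₀, R)` (`Pool.Agent.N253.EC`). The other parameters of `M_d ∩ D(c₀, R)` are expanding.
-/

set_option autoImplicit false

open MeasureTheory Filter Metric Topology

namespace Pool.Agent.Results.MP_c35c17_an.ExpandingOutsideSmallPieces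

open Pool.Agent.H713R2 (IsExteriorMap)

/-- The polynomial `z ^ d + c`. -/
def f (d : ℕ) (c : ℂ) : ℂ → ℂ := fun z => z ^ d + c

/-- `c₀` is in the Multibrot set and the critical value `c₀` has the Lyapunov exponent `χ > 0`. -/
def HasLyapunov (d : ℕ) (χ : ℝ) (c₀ : ℂ) : Prop :=
  0 < χ ∧ c₀ ∈ N62a1eb23.multibrotSet d ∧
    Tendsto (fun n : ℕ => Real.log ‖deriv ((f d c₀)^[n]) c₀‖ / n) atTop (𝓝 χ)

/-- The ray of angle `θ` lands at `c`. -/
def Lands (ψ : ℂ → ℂ) (θ : ℝ) (c : ℂ) : Prop :=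
  Tendsto (fun r : ℝ => ψ (r * Complex.exp (θ * Complex.I))) (𝓝[>] 1) (𝓝 c)

/-- The superattracting parameters. -/
def centres (d : ℕ) : Set ℂ := {c | ∃ n : ℕ, 1 ≤ n ∧ (f d c)^[n] 0 = 0}

/-- The expanding parameters of the Multibrot set: the Collet-Eckmann condition holds, and the
critical orbit stays away from the critical point. -/
def Expanding (d : ℕ) : Set ℂ :=
  {c | c ∈ N62a1eb23.multibrotSet d ∧
    (∃ C lam : ℝ, 1 < lam ∧ ∀ n : ℕ, lam ^ n ≤ C * ‖deriv ((f d c)^[n]) c‖) ∧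
    ∃ s : ℝ, 0 < s ∧ ∀ n : ℕ, 1 ≤ n → s ≤ ‖(f d c)^[n] 0‖}

/-- The rest: the interior points of the Multibrot set, and its parameters which are not expanding. -/
def Rest (d : ℕ) : Set ℂ :=
  {c | c ∈ N62a1eb23.multibrotSet d ∧
    (c ∈ interior (N62a1eb23.multibrotSet d) ∨ c ∉ Expanding d)}

/-- Near `c₀` the set `Rest` is in small pieces. -/
def SmallNear (d : ℕ) (c₀ : ℂ) : Prop :=
  ∀ ε : ℝ, 0 < ε → ∃ R₀ : ℝ, 0 < R₀ ∧ ∀ R : ℝ, 0 < R → R ≤ R₀ →
    -- connected sets of parameters which are interior or not expanding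
    (∀ Γ ⊆ Rest d, IsPreconnected Γ → (Γ ∩ closedBall c₀ R).Nonempty →
      ∀ c ∈ Γ, ∀ c' ∈ Γ, ‖c - c'‖ ≤ R ^ ((d : ℝ) / (d - 1) - ε)) ∧
    -- separation by disjoint small open sets, and density of superattracting parameters outside
    ∃ 𝒲 : Set (Set ℂ), 𝒲.PairwiseDisjoint id ∧ Rest d ∩ ball c₀ R ⊆ ⋃₀ 𝒲 ∧
      (N62a1eb23.multibrotSet d ∩ ball c₀ R) \ ⋃₀ 𝒲 ⊆ closure (centres d) ∧
      ∀ W ∈ 𝒲, IsOpen W ∧ ∀ c ∈ W, ∀ c' ∈ W, ‖c - c'‖ ≤ R ^ ((d : ℝ) / (d - 1) - ε)

/-- Expanding parameters are limits of superattracting parameters. -/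
theorem expanding_subset {d : ℕ} (hd : 2 ≤ d) : Expanding d ⊆ closure (centres d) := by
  rintro c₁ ⟨hM, ⟨C, lam, hlam, hexp⟩, s, hs, hrec⟩
  have hdR : (2 : ℝ) ≤ d := by exact_mod_cast hd
  have hd1 : (0 : ℝ) < (d : ℝ) - 1 := by linarith
  have hCE : Y298.SH.CD.CEp d (max 1 C) lam c₁ :=
    Y298.SH.CD.cep_of_mem hd (le_max_left _ _) hlam hM (fun n => by
      refine (hexp n).trans ?_
      exact mul_le_mul_of_nonneg_right (le_max_right _ _) (norm_nonneg _))
  have hRec : Y298.SH.CD.Rec d (1 / s) 0 c₁ := by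
    intro n
    rw [Real.rpow_zero, mul_one]
    have h1 := hrec (n + 1) (by omega)
    have h2 : (f d c₁)^[n + 1] 0 = Y298.SH.CD.zz d c₁ n := by
      rw [Function.iterate_succ_apply]
      have h3 : f d c₁ 0 = c₁ := by
        unfold f
        rw [zero_pow (by omega), zero_add]
      rw [h3]
      rfl
    rw [h2] at h1
    rw [one_div, inv_mul_eq_div, le_div_iff₀ hs, one_mul]
    exact h1
  obtain ⟨K, hK, H⟩ := Y298.SH.CD.upper hd (max 1 C) lam (C₂ := 1 / s) (β := 0) (t := 1 / 2)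
    (by positivity) le_rfl (by norm_num) (by norm_num)
  obtain ⟨σ, hσ⟩ : ∃ σ : ℝ, σ = (d : ℝ) * (1 / 2) / (d - 1) := ⟨_, rfl⟩
  have hσ0 : 0 < σ := by rw [hσ]; positivity
  rw [← hσ] at H
  -- `c₁` is not isolated
  have h0M : (0 : ℂ) ∈ N62a1eb23.multibrotSet d := by
    have h1 : ∀ k : ℕ, (fun z : ℂ => z ^ d + 0)^[k] 0 = 0 := by
      intro k
      induction k with
      | zero => rfl
      | succ k ih => rw [Function.iterate_succ_apply', ih]; simp; omega
    intro ht
    have h2 : Tendsto (fun _ : ℕ => (0 : ℂ)) atTop (Bornology.cobounded ℂ) :=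
      ht.congr fun k => h1 k
    have h3 := (tendsto_norm_cobounded_atTop.comp h2).eventually_gt_atTop 1
    obtain ⟨k, hk⟩ := h3.exists
    simp at hk
    linarith
  have hne : c₁ ≠ 0 := by
    intro h0
    have h1 := hrec 1 le_rfl
    rw [h0, Function.iterate_one] at h1
    unfold f at h1
    rw [zero_pow (by omega), add_zero, norm_zero] at h1
    linarith
  have hacc : AccPt c₁ (𝓟 (N62a1eb23.multibrotSet d)) :=
    (Pool.Agent.H712R2.isConnected_multibrot hd).isPreconnected.preperfect_of_nontrivial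
      ⟨c₁, hM, 0, h0M, hne⟩ c₁ hM
  rw [accPt_iff_frequently] at hacc
  rw [Metric.mem_closure_iff]
  intro ε hε
  have hlim : Tendsto (fun y : ℂ => K * ‖y - c₁‖ ^ σ + ‖y - c₁‖) (𝓝 c₁) (𝓝 0) := by
    have h1 : Tendsto (fun y : ℂ => ‖y - c₁‖) (𝓝 c₁) (𝓝 0) := by
      have h2 : Continuous (fun y : ℂ => ‖y - c₁‖) := by fun_prop
      simpa using h2.tendsto c₁
    have h3 : Tendsto (fun y : ℂ => K * ‖y - c₁‖ ^ σ) (𝓝 c₁) (𝓝 (K * 0)) := by
      refine Tendsto.const_mul K ?_
      have h4 : ContinuousAt (fun x : ℝ => x ^ σ) 0 := Real.continuousAt_rpow_const 0 σ (Or.inr hσ0.le)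
      have h5 := h4.tendsto.comp h1
      rw [Real.zero_rpow hσ0.ne'] at h5
      exact h5
    simpa using h3.add h1
  obtain ⟨y, ⟨hy1, hy2⟩, hy3⟩ := (hacc.and_eventually (hlim.eventually_lt_const hε)).exists
  obtain ⟨-, ⟨c', h1, p, hp, h2, -⟩, -, -⟩ := H c₁ hCE hRec y hy2 hy1
  refine ⟨c', ⟨p, hp, h2⟩, ?_⟩
  rw [dist_comm, dist_eq_norm]
  have h3 := norm_add_le (c' - y) (y - c₁)
  rw [sub_add_sub_cancel] at h3
  linarith

theorem rest_or {d : ℕ} {c : ℂ} (h : c ∈ Rest d) :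
    c ∈ N62a1eb23.multibrotSet d ∧
      (c ∈ interior (N62a1eb23.multibrotSet d) ∨ ¬ N253.LS.Semihyp d c) := by
  obtain ⟨hM, hi | hv⟩ := h
  · exact ⟨hM, Or.inl hi⟩
  · refine ⟨hM, Or.inr fun hs => hv ?_⟩
    obtain ⟨⟨⟨C₁, lam, hCE⟩, -⟩, s, hs0, hs⟩ := hs
    exact ⟨hM, ⟨C₁, lam, hCE.lam1, hCE.exp⟩, s, hs0, hs⟩

theorem near {d : ℕ} (hd : 2 ≤ d) {χ : ℝ} {c₀ : ℂ} (h : HasLyapunov d χ c₀) : SmallNear d c₀ := by
  intro ε hε
  have hL : Pool.Agent.Y298.CA.Lyap d χ c₀ := ⟨h.1, h.2.1, h.2.2⟩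
  obtain ⟨R₁, hR₁, H1⟩ := N253.LS.sets_all hd hL hε
  obtain ⟨R₂, hR₂, H2⟩ := N253.LS.cover_all hd hL hε
  refine ⟨min R₁ R₂, lt_min hR₁ hR₂, fun R hR hRR => ⟨?_, ?_⟩⟩
  · rintro Γ hΓ hpre ⟨c₁, hc₁, hc₁R⟩ c hc c' hc'
    have hc₁R' : ‖c₁ - c₀‖ ≤ 2 * R := by
      rw [mem_closedBall, dist_eq_norm] at hc₁R
      linarith
    have hpos : 0 < R ^ ((d : ℝ) / (d - 1) - ε) := Real.rpow_pos_of_pos hR _
    have H := H1 R hR (hRR.trans (min_le_left _ _)) Γ hpre (fun t ht _ =>
      rest_or (hΓ ht)) c₁ hc₁ hc₁R'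
    have h3 := norm_sub_le (c - c₁) (c' - c₁)
    rw [sub_sub_sub_cancel_right] at h3
    linarith [H c hc, H c' hc']
  · obtain ⟨𝒲, h1, h2, h3⟩ := H2 R hR (hRR.trans (min_le_right _ _))
    have hsub : Rest d ∩ ball c₀ R ⊆ ⋃₀ 𝒲 := by
      rintro t ⟨ht, htR⟩
      rw [mem_ball, dist_eq_norm] at htR
      obtain ⟨W, hW, htW⟩ := h3 t (rest_or ht).1 htR (rest_or ht).2
      exact ⟨W, hW, htW⟩
    refine ⟨𝒲, h2, hsub, ?_, fun W hW => ⟨(h1 W hW).1, (h1 W hW).2.2⟩⟩
    rintro t ⟨⟨htM, htR⟩, htW⟩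
    apply expanding_subset hd
    by_contra hcon
    exact htW (hsub ⟨⟨htM, Or.inr hcon⟩, htR⟩)

theorem result (d : ℕ) (hd : 2 ≤ d) :
    -- parameters with a positive Lyapunov exponent at the critical value
    (∀ (χ : ℝ) (c₀ : ℂ), HasLyapunov d χ c₀ → SmallNear d c₀) ∧
    -- almost every external ray lands at such a parameter, and the exponent is `log d`
    (∃ ψ : ℂ → ℂ, IsExteriorMap (N62a1eb23.multibrotSet d) ψ) ∧
    ∀ ψ : ℂ → ℂ, IsExteriorMap (N62a1eb23.multibrotSet d) ψ →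
      ∀ᵐ θ : ℝ, ∃ c₀ ∈ frontier (N62a1eb23.multibrotSet d),
        Lands ψ θ c₀ ∧ HasLyapunov d (Real.log d) c₀ ∧ SmallNear d c₀ := by
  obtain ⟨β, hβ⟩ := Pool.Agent.H713R2.exists_beta (d := d) hd
  refine ⟨fun χ c₀ h => near hd h, ⟨_, Pool.Agent.H713R2.exteriorMap_of_beta hβ⟩, ?_⟩
  intro ψ hψ
  filter_upwards [Pool.Agent.Y272.TY.ae_neg' (Pool.Agent.Y272.TY.typical_all hd hβ)] with θ hθ
  obtain ⟨c₀, A, R, h⟩ := hθ
  obtain ⟨h1, h2, h3⟩ := Pool.Agent.Y298.CA.lyap_of_typ hd hβ h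
  exact ⟨c₀, h.frontier hd hβ, h.tendsto_psi hβ hψ, ⟨h1, h2, h3⟩, near hd ⟨h1, h2, h3⟩⟩

end Pool.Agent.Results.MP_c35c17_an.ExpandingOutsideSmallPieces
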