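import Mathlib
import Pool.Prelude.Def_F_c31e40fa
import Pool.Agent.N673.QC.Bdry

set_option autoImplicit false

/-!
# Density of hyperbolicity is decided at isolated, nonresonant, slim boundary parameters

Let `d ≥ 2` and let `M` be the Multibrot set of degree `d`. A parameter is good if, at the same time
and for every period of renormalization, it is

* isolated: few superattracting parameters in small discs, and bounded averages of negative powers
  of the distances to the superattracting parameters;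
* nonresonant: the superattracting parameters of period dividing `n` are not too close, and all
  holomorphic perturbations move the `n`-th point of the critical orbit slowly compared with its size;
* slim: the harmonic measure and Green's function of small discs and the derivatives with respect to
  the parameter are small.

The parameters of `M` which are not good form a countable union of sets of Hausdorff dimension less
than one. By a theorem of Makarov, proved here in `Pool/Agent/N673/QC/MakA.lean`, `MakB.lean` and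
`MakC.lean`, no conformal map of the disc sees such a set: for almost every angle the radial limit
exists and is not in the set. So for every connected component of the interior of `M` harmonically
almost every boundary point is good. The connected components consist of parameters with attracting
cycles or of parameters without attracting cycles (`Comp.lean`), and hyperbolicity is dense in `M` if
and only if no good parameter lies on the boundary of a component of the second kind.
-/

open Filter Topology Set Metric MeasureTheory Complex N62a1eb23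

namespace Pool.Agent.Results.MP_c35c17_an.GoodBoundaryParameters

open Pool.Agent.H713R2

/-- The map `z ↦ z ^ d + c`. -/
def f (d : ℕ) (c : ℂ) : ℂ → ℂ := fun z => z ^ d + c

/-- The point `f_c^n (0)` of the critical orbit. -/
def P (d n : ℕ) (c : ℂ) : ℂ := (f d c)^[n] 0

/-- The superattracting parameters of period dividing `n`. -/
def centres (d n : ℕ) : Set ℂ := {a | P d n a = 0}

/-- The perturbation `(id + t Φ) ∘ f_c` of `f_c`. For `Φ = 1` it is `f_(c + t)`. -/
def g (d : ℕ) (c : ℂ) (Φ : ℂ → ℂ) (t : ℂ) : ℂ → ℂ := fun z => f d c z + t * Φ (f d c z)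

/-- `h` is proper of degree at most `d` from the bounded open set `U` onto a set which contains the
closure of `U`. Polynomial-like maps of degree `d` have this property. -/
def PolynomialLike (d : ℕ) (h : ℂ → ℂ) (U : Set ℂ) : Prop :=
  IsOpen U ∧ Bornology.IsBounded U ∧ closure U ⊆ h '' U ∧
    (∀ K ⊆ h '' U, IsCompact K → IsCompact {z | z ∈ U ∧ h z ∈ K}) ∧
    ∀ w ∈ h '' U, {z | z ∈ U ∧ h z = w}.encard ≤ d

/-- `z ↦ z ^ d + c` is renormalizable of period `p`. -/
def Renormalizable (d : ℕ) (c : ℂ) (p : ℕ) : Prop :=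
  ∃ U : Set ℂ, PolynomialLike d ((f d c)^[p]) U ∧ (0 : ℂ) ∈ U ∧
    (∀ n : ℕ, 1 ≤ n → (f d c)^[n * p] 0 ∈ U) ∧ ∀ z ∈ U, deriv ((f d c)^[p]) z = 0 → z = 0

/-- Isolated parameters. For `q = 1` and for every period `q` of renormalization, for every
`κ < q`: all small discs of radius `r` about `c` contain at most `d ^ n * r ^ κ` superattracting
parameters of period dividing `n`, for all `n` at the same time, and the sum of `|a - c| ^ (-κ)` over
the superattracting parameters `a` of period dividing `n` is at most a constant times `d ^ n`. -/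
def Isolated (d : ℕ) (c : ℂ) : Prop :=
  ∀ q : ℕ, 1 ≤ q → (q = 1 ∨ Renormalizable d c q) → ∀ κ : ℝ, 0 < κ → κ < q →
    (∀ᶠ r : ℝ in 𝓝[>] 0, ∀ n : ℕ, 1 ≤ n →
      ((centres d n ∩ ball c r).ncard : ℝ) ≤ (d : ℝ) ^ n * r ^ κ) ∧
    ∃ C : ℝ, ∀ n : ℕ, 1 ≤ n → c ∉ centres d n ∧
      ∑ᶠ a ∈ centres d n, dist a c ^ (-κ) ≤ C * (d : ℝ) ^ n

/-- Nonresonant parameters. For `q = 1` and for every period `q` of renormalization, for every
`X > log d / q` and all large `n`, all superattracting parameters of period dividing `n` are at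
distance more than `exp (- X n)`, and every holomorphic perturbation of the map moves the `n`-th
point of the critical orbit with a speed which is at most `exp (X n)` times its size (up to a
logarithm and a constant). -/
def Nonresonant (d : ℕ) (K : ℝ) (c : ℂ) : Prop :=
  ∀ q : ℕ, 1 ≤ q → (q = 1 ∨ Renormalizable d c q) → ∀ X : ℝ, Real.log d / q < X →
    ∀ᶠ n : ℕ in atTop, (∀ a ∈ centres d n, Real.exp (-(X * n)) < dist a c) ∧
      ∀ (Φ : ℂ → ℂ) (M : ℝ), DifferentiableOn ℂ Φ (ball 0 4) →
        (∀ x ∈ ball (0 : ℂ) 4, ‖Φ x‖ ≤ M) →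
        DifferentiableAt ℂ (fun t : ℂ => (g d c Φ t)^[n] 0) 0 ∧
        ‖deriv (fun t : ℂ => (g d c Φ t)^[n] 0) 0‖ ≤
          K * M * Real.exp (X * n) * (‖P d n c‖ * (1 + |Real.log ‖P d n c‖|))

/-- The angles `t ∈ (0, 2π]` of the external rays landing at distance less than `r` from `c₀`. -/
def angles (ψ : ℂ → ℂ) (c₀ : ℂ) (r : ℝ) : Set ℝ :=
  {t | t ∈ Ioc 0 (2 * Real.pi) ∧ ∃ ζ ∈ ball c₀ r,
    Tendsto (fun ρ : ℝ => ψ (ρ * exp (t * I))) (𝓝[>] 1) (𝓝 ζ)}

/-- The harmonic measure (from infinity) of the disc of radius `r`, up to the factor `2π`. -/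
noncomputable def harm (ψ : ℂ → ℂ) (c₀ : ℂ) (r : ℝ) : ℝ := (volume (angles ψ c₀ r)).toReal

/-- The maximum over a disc of Green's function of the complement of the Multibrot set: Green's
function is `log ‖w‖` at the point `ψ w`. -/
noncomputable def green (ψ : ℂ → ℂ) (c₀ : ℂ) (r : ℝ) : ℝ :=
  sSup {x | ∃ w : ℂ, 1 < ‖w‖ ∧ ‖ψ w - c₀‖ ≤ r ∧ Real.log ‖w‖ = x}

/-- Slim parameters. For `q = 1` and for every period `q` of renormalization: the harmonic measure
and Green's function of the disc of radius `r` about `c` are less than `r ^ κ` for small `r`, for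
every `κ < q`, and the exponential rate of growth of the derivatives with respect to the parameter is
at most `log d / q`. -/
def Slim (d : ℕ) (ψ : ℂ → ℂ) (c : ℂ) : Prop :=
  ∀ q : ℕ, 1 ≤ q → (q = 1 ∨ Renormalizable d c q) →
    (∀ κ : ℝ, 0 < κ → κ < q → ∀ᶠ r : ℝ in 𝓝[>] 0, harm ψ c r < r ^ κ ∧ green ψ c r < r ^ κ) ∧
    ∀ a : ℝ, Real.log d / q < a → ∀ᶠ n : ℕ in atTop, ‖deriv (P d n) c‖ < Real.exp (a * n)

/-- Isolated, nonresonant and slim. -/
def Good (d : ℕ) (K : ℝ) (ψ : ℂ → ℂ) (c : ℂ) : Prop :=
  Isolated d c ∧ Nonresonant d K c ∧ Slim d ψ c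

/-- The parameters in `ℂ` for which `z ↦ z ^ d + c` has an attracting cycle. -/
def hyperbolic (d : ℕ) : Set ℂ := {c | ∃ m z, IsAttractingCycle (fun z => z ^ d + c) m z}

/-- `V` is a connected component of the interior of the Multibrot set. -/
def IsComponent (d : ℕ) (V : Set ℂ) : Prop :=
  ∃ c ∈ interior (multibrotSet d), V = connectedComponentIn (interior (multibrotSet d)) c

/-- `φ` is holomorphic and injective in the unit disc. -/
def Univalent (φ : ℂ → ℂ) : Prop := DifferentiableOn ℂ φ (ball 0 1) ∧ InjOn φ (ball 0 1)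

/-- `c` is the radial limit of `φ` at the angle `t`. -/
def RadialLimit (φ : ℂ → ℂ) (t : ℝ) (c : ℂ) : Prop :=
  Tendsto (fun r : ℝ => φ (r * exp (t * I))) (𝓝[<] 1) (𝓝 c)

theorem centres_eq {d : ℕ} (hd : 2 ≤ d) (N : ℕ) :
    centres d (N + 1) = ((Pool.Agent.R240.LL.ZZ d N : Finset ℂ) : Set ℂ) := by
  ext a
  rw [Finset.mem_coe, Pool.Agent.R240.LL.mem_ZZ hd]
  rfl

theorem inter_eq (d n : ℕ) (c : ℂ) (r : ℝ) :
    centres d n ∩ ball c r = Pool.Agent.R240.Sparse.cen d n c r := by
  ext a
  exact and_comm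

theorem isolated {d : ℕ} (hd : 2 ≤ d) {c : ℂ} (h : Pool.Agent.R449.MB.Nice d c) :
    Isolated d c := by
  intro q hq hr κ hκ0 hκ
  obtain ⟨h1, h2, C, hC⟩ := h q hq hr κ hκ0 hκ
  refine ⟨?_, C, ?_⟩
  · filter_upwards [h1] with r h3 n hn
    rw [inter_eq]
    exact h3 n hn
  · intro n hn
    obtain ⟨N, rfl⟩ : ∃ N, n = N + 1 := ⟨n - 1, by omega⟩
    refine ⟨h2 (N + 1) hn, ?_⟩
    rw [centres_eq hd, finsum_mem_coe_finset]
    simpa only [dist_eq_norm] using hC N

theorem nonres {d : ℕ} (hd : 2 ≤ d) {c : ℂ} (hc : c ∈ multibrotSet d)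
    (h : Pool.Agent.R240.Res.Nonres d c) : Nonresonant d Pool.Agent.R240.Res.KR c := by
  intro q hq hr X hX
  have h1 := h q hq hr X hX
  filter_upwards [h1] with n hn
  refine ⟨fun a ha => ?_, fun Φ M hΦ hM => ?_⟩
  · rw [dist_eq_norm]
    exact hn.1 a ha
  · have h2 : HasDerivAt (fun t : ℂ => (g d c Φ t)^[n] 0) (Pool.Agent.R240.Univ.vel d c Φ n) 0 :=
      Pool.Agent.R240.Univ.vel_deriv hd hc hΦ n
    refine ⟨h2.differentiableAt, ?_⟩
    rw [h2.deriv]
    exact hn.2 Φ M hΦ hM

theorem slim {d : ℕ} {ψ : ℂ → ℂ} (hd : 2 ≤ d) {c : ℂ} (hc : c ∈ multibrotSet d)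
    (h : Pool.Agent.R240.Slim.SlimAt d ψ c) : Slim d ψ c := by
  intro q hq hr
  apply h q hq
  rcases hr with rfl | hr
  · exact Pool.Agent.Y736.RN.ren_one hd hc
  · obtain ⟨U, h1, h2, h3, _⟩ := hr
    exact ⟨U, h1, h2, h3⟩

theorem good {d : ℕ} {ψ : ℂ → ℂ} (hd : 2 ≤ d) {c : ℂ} (hc : c ∈ multibrotSet d)
    (h : Pool.Agent.N673.QC.GoodP d ψ c) : Good d Pool.Agent.R240.Res.KR ψ c :=
  ⟨isolated hd h.1, nonres hd hc h.2.1, slim hd hc h.2.2⟩

theorem radial_eq (φ : ℂ → ℂ) (t : ℝ) : (fun r : ℝ => φ (r * exp (t * I))) =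
    fun r : ℝ => φ (Pool.Agent.W677.Mar.pt r t) := by
  funext r
  unfold Pool.Agent.W677.Mar.pt circleMap
  rw [zero_add]

/-- **Density of hyperbolicity is decided at good boundary parameters.** For every degree `d ≥ 2`,
with a constant `K`:

(1) the parameters of the Multibrot set which are not good form a countable union of sets of
Hausdorff dimension less than one;

(2) every univalent function in the unit disc has at almost every angle a radial limit, which is a
good parameter if it belongs to the Multibrot set;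

(3) for every component `V` of the interior of the Multibrot set: all parameters in `V` have an
attracting cycle, or none has; the boundary of `V` lies in the boundary of the Multibrot set; a
conformal map of the disc onto `V` has at almost every angle a radial limit on the boundary of `V`
which is a good parameter; almost every small circle about a boundary point of `V` meets the
boundary of `V`, and only in good parameters;

(4) hyperbolicity is dense in the Multibrot set if and only if no good parameter lies on the boundary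
of a component of the interior whose parameters have no attracting cycle. -/
theorem result (d : ℕ) (hd : 2 ≤ d) :
    (∃ ψ : ℂ → ℂ, IsExteriorMap (multibrotSet d) ψ) ∧
    (∀ n : ℕ, 1 ≤ n → (centres d n).Finite) ∧
    ∃ K : ℝ, 0 < K ∧ ∀ ψ : ℂ → ℂ, IsExteriorMap (multibrotSet d) ψ →
      (∃ E : ℕ → Set ℂ, (∀ n, dimH (E n) < 1) ∧
        {c | c ∈ multibrotSet d ∧ ¬ Good d K ψ c} ⊆ ⋃ n, E n) ∧
      (∀ φ : ℂ → ℂ, Univalent φ → ∀ᵐ t : ℝ, ∃ c : ℂ, RadialLimit φ t c ∧
        (c ∈ multibrotSet d → Good d K ψ c)) ∧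
      (∀ V : Set ℂ, IsComponent d V →
        (V ⊆ hyperbolic d ∨ Disjoint V (hyperbolic d)) ∧
        frontier V ⊆ frontier (multibrotSet d) ∧
        (∀ φ : ℂ → ℂ, Univalent φ → φ '' ball 0 1 = V → ∀ᵐ t : ℝ, ∃ c ∈ frontier V,
          RadialLimit φ t c ∧ Good d K ψ c) ∧
        ∀ p ∈ frontier V, ∃ ε : ℝ, 0 < ε ∧ ∀ᵐ s : ℝ, 0 < s → s < ε →
          (∃ c ∈ frontier V, dist c p = s) ∧ ∀ c ∈ frontier V, dist c p = s → Good d K ψ c) ∧
      (multibrotSet d ⊆ closure (hyperbolic d) ↔
        ∀ c ∈ frontier (multibrotSet d), Good d K ψ c → ∀ V : Set ℂ, IsComponent d V →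
          c ∈ frontier V → ¬ Disjoint V (hyperbolic d)) := by
  obtain ⟨β, hβ⟩ := exists_beta (d := d) hd
  have hMcl : IsClosed (multibrotSet d) := (Pool.Agent.H712R2.isCompact_multibrot hd).isClosed
  refine ⟨⟨_, exteriorMap_of_beta hβ⟩, ?_, Pool.Agent.R240.Res.KR, Pool.Agent.R240.Res.KR_pos, ?_⟩
  · intro n hn
    obtain ⟨N, rfl⟩ : ∃ N, n = N + 1 := ⟨n - 1, by omega⟩
    rw [centres_eq hd]
    exact (Pool.Agent.R240.LL.ZZ d N).finite_toSet
  intro ψ hψ
  have hthin := Pool.Agent.N673.QC.thin_bad hd hψ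
  refine ⟨?_, ?_, ?_, ?_⟩
  · obtain ⟨E, h1, h2⟩ := hthin
    refine ⟨E, h1, fun c hc => h2 ⟨hc.1, fun h3 => hc.2 (good hd hc.1 h3)⟩⟩
  · intro φ hφ
    filter_upwards [hthin.univalent hφ.1 hφ.2] with t ht
    obtain ⟨c, hc, hc2⟩ := ht
    refine ⟨c, ?_, fun hcM => ?_⟩
    · unfold RadialLimit
      rw [radial_eq]
      exact hc2
    · by_contra hcon
      exact hc ⟨hcM, fun h3 => hcon (good hd hcM h3)⟩
  · intro V hV
    have hV' : Pool.Agent.N673.QC.IsComp d V := hV
    have hfr := hV'.frontier_sub hd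
    refine ⟨?_, hfr, ?_, ?_⟩
    · by_cases h1 : Disjoint V (hyperbolic d)
      · exact Or.inr h1
      · obtain ⟨c₀, hc₀, m, z, hz⟩ := not_disjoint_iff.1 h1
        refine Or.inl fun c hc => ?_
        obtain ⟨w, hw⟩ := Pool.Agent.N673.QC.component hd hV'.isOpen hV'.isPreconnected hV'.sub
          hc₀ hz c hc
        exact ⟨m, w, hw⟩
    · intro φ hφ him
      filter_upwards [hthin.univalent hφ.1 hφ.2] with t ht
      obtain ⟨c, hc, hc2⟩ := ht
      have hcf : c ∈ frontier V :=
        Pool.Agent.N673.QC.limit_mem_frontier hφ.1 hφ.2 hV'.isOpen him hc2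
      have hcM : c ∈ multibrotSet d := hMcl.frontier_subset (hfr hcf)
      refine ⟨c, hcf, ?_, ?_⟩
      · unfold RadialLimit
        rw [radial_eq]
        exact hc2
      · by_contra hcon
        exact hc ⟨hcM, fun h3 => hcon (good hd hcM h3)⟩
    · intro p hp
      obtain ⟨ε, hε, h1⟩ := hV'.good_circles hd hψ hp
      refine ⟨ε, hε, ?_⟩
      filter_upwards [h1] with s hs hs0 hsε
      obtain ⟨h2, h3⟩ := hs hs0 hsε
      exact ⟨h2, fun c hc hcs => good hd (hMcl.frontier_subset (hfr hc)) (h3 c hc hcs)⟩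
  · rw [show hyperbolic d = {c | ∃ m z, IsAttractingCycle (fun z => z ^ d + c) m z} from rfl,
      Pool.Agent.N673.QC.dense_iff hd hψ]
    constructor
    · intro h c hc _ V hV hcV
      obtain ⟨p, hp, hg⟩ := Pool.Agent.N673.QC.IsComp.exists_good hd hψ (V := V) hV
      obtain ⟨c', hc', h1⟩ := h p (Pool.Agent.N673.QC.IsComp.frontier_sub hd hV hp) hg V hV hp
      exact not_disjoint_iff.2 ⟨c', hc', h1⟩
    · intro h c hc hg V hV hcV
      obtain ⟨c', hc', h1⟩ := not_disjoint_iff.1
        (h c hc (good hd (hMcl.frontier_subset hc) hg) V hV hcV)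
      exact ⟨c', hc', h1⟩

end Pool.Agent.Results.MP_c35c17_an.GoodBoundaryParameters
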