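import Mathlib
import Pool.Prelude.Def_F_c31e40fa
import Pool.Agent.N896.MB.Exact
import Pool.Agent.N896.MB.Law

/-!
# The local law for the superattracting parameters of exact period `n`

Let `ω` be the harmonic measure of the Multibrot set `M_d` seen from infinity. For every disc
centred in `M_d`, every `n` and every `δ ∈ (0, 1]` the number of the superattracting parameters of
exact period `n` in the disc is `d ^ (n - 1) ω(disc)`, up to changing the radius by the factor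
`1 + δ` and up to an error `K n ^ 2 log d / δ` (and a factor `1 - d ^ (1 - n / 4)`) with ONE
constant `K` for all `d`, all discs, all `n` and all `δ`.

Consequence for the density of hyperbolicity: a disc `D(c₀, r)` with
`K n ^ 2 log d < d ^ (n - 1) ω(D(c₀, r))` and `n ≥ 8` has in its double a disc of explicit radius
all of whose parameters have an attracting cycle of period dividing `n`, centred at a
superattracting parameter of exact period `n`.

The library has the law for the parameters with `f ^ n (0) = 0` (`Pool/Agent/R240/LL4.lean`) and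
the size of the hyperbolic discs (`Pool/Agent/R240/Size.lean`). New: exact periods, in all discs.
-/

set_option autoImplicit false

open MeasureTheory Filter Metric Topology

namespace Pool.Agent.Results.MP_c35c17_an.LocalLawExactPeriods

open Pool.Agent.H713R2 (IsExteriorMap)

/-- The polynomial `z ^ d + c`. -/
def f (d : ℕ) (c : ℂ) : ℂ → ℂ := fun z => z ^ d + c

/-- The superattracting parameters of exact period `n`: the critical point `0` of `z ^ d + c` is
periodic with least period `n`. -/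
def centres (d n : ℕ) : Set ℂ := {c | Function.minimalPeriod (f d c) 0 = n}

/-- The number of superattracting parameters of exact period `n` in the disc of radius `r` about
`c₀`. -/
noncomputable def number (d n : ℕ) (c₀ : ℂ) (r : ℝ) : ℕ :=
  {c | c ∈ centres d n ∧ ‖c - c₀‖ < r}.ncard

/-- The harmonic measure of the disc of radius `r` about `c₀`: the proportion of the angles
`θ ∈ (0, 2π]` for which the radial limit of the exterior map `ψ` exists and is in the disc. -/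
noncomputable def harmonic (ψ : ℂ → ℂ) (c₀ : ℂ) (r : ℝ) : ℝ :=
  (volume {θ : ℝ | θ ∈ Set.Ioc 0 (2 * Real.pi) ∧ ∃ ζ : ℂ, ‖ζ - c₀‖ < r ∧
    Tendsto (fun t : ℝ => ψ (t * Complex.exp (θ * Complex.I))) (𝓝[>] 1) (𝓝 ζ)}).toReal /
      (2 * Real.pi)

theorem result : ∃ K : ℝ, 0 < K ∧ ∀ d : ℕ, 2 ≤ d →
    (∃ ψ : ℂ → ℂ, IsExteriorMap (N62a1eb23.multibrotSet d) ψ) ∧
    ∀ ψ : ℂ → ℂ, IsExteriorMap (N62a1eb23.multibrotSet d) ψ →
      -- the local law
      (∀ c₀ ∈ N62a1eb23.multibrotSet d, ∀ n : ℕ, 1 ≤ n → ∀ r δ : ℝ, 0 < r → 0 < δ → δ ≤ 1 →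
        (number d n c₀ r : ℝ) ≤
          (d : ℝ) ^ (n - 1) * harmonic ψ c₀ ((1 + δ) * r) + K * n * Real.log d / δ ∧
        (1 - (d : ℝ) ^ (1 - (n : ℝ) / 4)) * ((d : ℝ) ^ (n - 1) * harmonic ψ c₀ r) ≤
          number d n c₀ ((1 + δ) * r) + K * n ^ 2 * Real.log d / δ) ∧
      -- hyperbolic discs of every exact period
      (∀ c₀ ∈ N62a1eb23.multibrotSet d, ∀ n : ℕ, 8 ≤ n → ∀ r : ℝ, 0 < r →
        K * n ^ 2 * Real.log d < (d : ℝ) ^ (n - 1) * harmonic ψ c₀ r →
        ∃ c' ∈ centres d n, ‖c' - c₀‖ < 2 * r ∧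
          ∀ c : ℂ, ‖c - c'‖ ≤ 1 / (32 * (n * d) * (2 * d : ℝ) ^ ((n * d : ℝ) / (d - 1))) →
            ∃ z : ℂ, N62a1eb23.IsAttractingCycle (fun z => z ^ d + c) n z) := by
  have hKL := Pool.Agent.R240.LL.KL_pos
  obtain ⟨K, hK⟩ : ∃ K : ℝ, K = 32 * (Pool.Agent.R240.LL.KL + 1) := ⟨_, rfl⟩
  have hK0 : 0 < K := by rw [hK]; linarith
  refine ⟨2 * K, by linarith, fun d hd => ⟨?_, ?_⟩⟩
  · obtain ⟨β, hβ⟩ := Pool.Agent.H713R2.exists_beta (d := d) hd
    exact ⟨_, Pool.Agent.H713R2.exteriorMap_of_beta hβ⟩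
  intro ψ hψ
  have hd1 : (2 : ℝ) ≤ d := by exact_mod_cast hd
  have hlog : 0 < Real.log d := Real.log_pos (by linarith)
  have hset : ∀ (n : ℕ) (c₀ : ℂ) (r : ℝ),
      ({c | c ∈ centres d n ∧ ‖c - c₀‖ < r} : Set ℂ) = Pool.Agent.N896.MB.Ex d n c₀ r := by
    intro n c₀ r
    ext c
    constructor
    · rintro ⟨h1, h2⟩
      exact ⟨by rwa [mem_ball, dist_eq_norm], h1⟩
    · rintro ⟨h1, h2⟩
      exact ⟨h2, by rwa [mem_ball, dist_eq_norm] at h1⟩
  have hnum : ∀ (n : ℕ) (c₀ : ℂ) (r : ℝ),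
      number d n c₀ r = (Pool.Agent.N896.MB.Ex d n c₀ r).ncard := by
    intro n c₀ r
    unfold number
    rw [hset]
  have hharm : ∀ (c₀ : ℂ) (r : ℝ), harmonic ψ c₀ r = Pool.Agent.N896.MB.oh ψ c₀ r := by
    intro c₀ r
    unfold harmonic Pool.Agent.N896.MB.oh Pool.Agent.Y736.HD.Ang
    simp only [mem_ball, dist_eq_norm]
  have hlaw : ∀ c₀ ∈ N62a1eb23.multibrotSet d, ∀ n : ℕ, 1 ≤ n → ∀ r δ : ℝ, 0 < r → 0 < δ → δ ≤ 1 →
        (number d n c₀ r : ℝ) ≤
          (d : ℝ) ^ (n - 1) * harmonic ψ c₀ ((1 + δ) * r) + K * n * Real.log d / δ ∧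
        (1 - (d : ℝ) ^ (1 - (n : ℝ) / 4)) * ((d : ℝ) ^ (n - 1) * harmonic ψ c₀ r) ≤
          number d n c₀ ((1 + δ) * r) + K * n ^ 2 * Real.log d / δ := by
    intro c₀ hc₀ n hn r δ hr hδ0 hδ1
    rw [hnum, hnum, hharm, hharm]
    refine ⟨?_, ?_⟩
    · refine (Pool.Agent.N896.MB.ex_up hd hψ hc₀ hn hr hδ0 hδ1).trans ?_
      have : Pool.Agent.R240.LL.KL ≤ K := by rw [hK]; linarith
      gcongr
    · rw [hK]
      exact Pool.Agent.N896.MB.ex_low hd hψ hc₀ hn hr hδ0 hδ1
  refine ⟨?_, ?_⟩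
  · intro c₀ hc₀ n hn r δ hr hδ0 hδ1
    obtain ⟨h1, h2⟩ := hlaw c₀ hc₀ n hn r δ hr hδ0 hδ1
    refine ⟨h1.trans ?_, h2.trans ?_⟩
    · have : K ≤ 2 * K := by linarith
      gcongr
    · have : K ≤ 2 * K := by linarith
      gcongr
  · intro c₀ hc₀ n hn r hr hbig
    have h2 := (hlaw c₀ hc₀ n (by omega) r 1 hr one_pos le_rfl).2
    have hn8 : (8 : ℝ) ≤ n := by exact_mod_cast hn
    have hhalf : (1 : ℝ) / 2 ≤ 1 - (d : ℝ) ^ (1 - (n : ℝ) / 4) := by
      have h3 : (d : ℝ) ^ (1 - (n : ℝ) / 4) ≤ (d : ℝ) ^ (-1 : ℝ) :=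
        Real.rpow_le_rpow_of_exponent_le (by linarith) (by linarith)
      have h4 : (d : ℝ) ^ (-1 : ℝ) ≤ 1 / 2 := by
        rw [Real.rpow_neg_one, ← one_div]
        exact one_div_le_one_div_of_le (by norm_num) hd1
      linarith
    have hpos : 0 < (d : ℝ) ^ (n - 1) * harmonic ψ c₀ r := by
      have : 0 < 2 * K * n ^ 2 * Real.log d := by positivity
      linarith
    have h5 : 1 / 2 * ((d : ℝ) ^ (n - 1) * harmonic ψ c₀ r) ≤
        number d n c₀ ((1 + 1) * r) + K * n ^ 2 * Real.log d / 1 := by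
      refine le_trans ?_ h2
      gcongr
    have h6 : (0 : ℝ) < number d n c₀ ((1 + 1) * r) := by
      have h7 : K * n ^ 2 * Real.log d / 1 = K * n ^ 2 * Real.log d := div_one _
      have h8 : 2 * K * n ^ 2 * Real.log d = 2 * (K * n ^ 2 * Real.log d) := by ring
      rw [h7] at h5
      rw [h8] at hbig
      generalize (d : ℝ) ^ (n - 1) * harmonic ψ c₀ r = A at h5 hbig
      generalize K * (n : ℝ) ^ 2 * Real.log d = B at h5 hbig
      generalize ((number d n c₀ ((1 + 1) * r) : ℕ) : ℝ) = C at h5 ⊢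
      linarith
    have h7 : 0 < number d n c₀ ((1 + 1) * r) := by exact_mod_cast h6
    have h8 : ({c | c ∈ centres d n ∧ ‖c - c₀‖ < (1 + 1) * r} : Set ℂ).Nonempty := by
      rw [Set.nonempty_iff_ne_empty]
      intro h9
      unfold number at h7
      rw [h9, Set.ncard_empty] at h7
      exact lt_irrefl _ h7
    obtain ⟨c', h9, h10⟩ := h8
    refine ⟨c', h9, by linarith, ?_⟩
    intro c hc
    have h11 := Pool.Agent.N896.MB.att d hd n (by omega) c' h9
    exact Pool.Agent.R240.Size.disc hd (by omega) h11.1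
      (Pool.Agent.N896.MB.per_zero h9) hc

end Pool.Agent.Results.MP_c35c17_an.LocalLawExactPeriods
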