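import Mathlib
import Pool.Prelude.Def_F_c31e40fa
import Pool.Agent.N228.AZ.LS
import Pool.Agent.N228.AZ.Rad
import Pool.Agent.N951.AZ.Fin
import Pool.Agent.N490.AZ.Wavg
import Pool.Agent.N849.AZ.Rot
import Pool.Agent.N42.AZ.EscWin
import Pool.Agent.N498.AZ.Meas
import Pool.Agent.N547.AZ.Anu2
import Pool.Agent.N547.AZ.Main2
import Pool.Agent.N547.AZ.ToU1
import Pool.Agent.N547.AZ.ToU2
import Pool.Agent.N547.AZ.ToLoc

set_option autoImplicit false

/-!
# The areas of the hyperbolic parts of the Multibrot sets of large degree, up to `O(1 / n)`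

Let `M_n` be the Multibrot set of degree `n` and let `ell k n` be the `k`-fold iterated logarithm of
`n` (cut off at `0`). We determine, with an error which is uniform in all parameters, the areas of
the parameters with an attracting cycle of exact period `j + 1` and of the escaping parameters in
every annulus `a ≤ n |c| ^ (n - 1) ≤ b` of the `k`-th zone `ell k n ≤ a ≤ b ≤ ell (k - 1) n`: the
density of the exact period `j + 1` is `2 ^ (-j)` for `j = 1, ..., k` and the density of the escaping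
parameters is `2 ^ (-k)`. Globally, for all `k`,

`n area(exact period k + 1) = 2 π 2 ^ (-k) ell k n + O(1)`,

and the area of `M_n` is

`π - (2 π log n - 2 π (ell 1 n / 2 + ell 2 n / 4 + ell 3 n / 8 + ...)) / n + O(1 / n)`,

that is `π - (π log n - (π / 2) log log n - (π / 4) log log log n - ...) / n + O(1 / n)`. The same
holds for the hyperbolic parameters.

Parts of the proof are due to the helpers 951 (averaging, equidistribution on discs), 490 (weighted
averaging), 849 (rotations), 42 (escape), 498 (measurability), 547 (annuli, main component,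
summation), 9, 72, 495, 34, 427, 721 (earlier versions).
-/

open Filter Topology Set Metric MeasureTheory N62a1eb23

namespace Pool.Agent.Results.MP_c35c17_an.ZoneDensities

/-- The map `z ↦ z ^ n + c`. -/
def f (n : ℕ) (c : ℂ) : ℂ → ℂ := fun z => z ^ n + c

/-- The parameters for which `z ^ n + c` has an attracting cycle of exact period `m`. -/
def Exact (n m : ℕ) : Set ℂ :=
  {c | ∃ z, IsAttractingCycle (f n c) m z ∧ Function.minimalPeriod (f n c) z = m}

/-- The parameters for which `z ^ n + c` has an attracting cycle. -/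
def hyperbolic (n : ℕ) : Set ℂ := {c | ∃ m z, IsAttractingCycle (fun z => z ^ n + c) m z}

/-- The parameters of the Multibrot set `M_n` for which `z ^ n + c` has no attracting cycle of
period at most `m`. -/
def Rest (n m : ℕ) : Set ℂ :=
  {c | c ∈ multibrotSet n ∧ ∀ p, 1 ≤ p → p ≤ m → ¬ ∃ z, IsAttractingCycle (f n c) p z}

/-- The iterated logarithms of `n`, cut off at `0`. -/
noncomputable def ell (k n : ℕ) : ℝ := (fun x : ℝ => Real.log (max x 1))^[k] n

/-- The annulus `a ≤ n |c| ^ (n - 1) ≤ b`. -/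
def Ann (n : ℕ) (a b : ℝ) : Set ℂ := {c | a ≤ n * ‖c‖ ^ (n - 1) ∧ n * ‖c‖ ^ (n - 1) ≤ b}

/-- The area. -/
noncomputable def area (S : Set ℂ) : ℝ := (volume S).toReal

/-- The main term of `n (π - area(M_n))`: the series is finite since `ell j n = 0` for `j ≥ n`. -/
noncomputable def mainTerm (n : ℕ) : ℝ :=
  2 * Real.pi * Real.log n -
    ∑ j ∈ Finset.range n, 2 * Real.pi * (1 / 2) ^ (j + 1) * ell (j + 1) n

/-- All the estimates for the degree `n`, with the constant `C`. -/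
structure Estimates (n : ℕ) (C : ℝ) : Prop where
  /-- The exact periods `2, ..., k + 1` in the `k`-th zone. -/
  periods : ∀ k : ℕ, 1 ≤ k → ∀ a b : ℝ, 1 / 3 ≤ a → ell k n ≤ a → a ≤ b → b ≤ ell (k - 1) n →
    ∀ j, 1 ≤ j → j ≤ k → |n * area (Exact n (j + 1) ∩ Ann n a b) -
      2 * Real.pi * (1 / 2) ^ j * Real.log (b / a)| ≤ C
  /-- The escaping parameters in the `k`-th zone. -/
  escape : ∀ k : ℕ, 1 ≤ k → ∀ a b : ℝ, 1 / 3 ≤ a → ell k n ≤ a → a ≤ b → b ≤ ell (k - 1) n →
    |n * area (Ann n a b \ multibrotSet n) - 2 * Real.pi * (1 / 2) ^ k * Real.log (b / a)| ≤ C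
  /-- The parameters of `M_n` without attracting cycle of period at most `k + 1` in the `k`-th zone. -/
  rest : ∀ k : ℕ, 1 ≤ k → ∀ a b : ℝ, 1 / 3 ≤ a → ell k n ≤ a → a ≤ b → b ≤ ell (k - 1) n →
    n * area (Rest n (k + 1) ∩ Ann n a b) ≤ C
  /-- The total area of exact period `k + 1`. -/
  total : ∀ k : ℕ, 1 ≤ k →
    |n * area (Exact n (k + 1)) - 2 * Real.pi * (1 / 2) ^ k * ell k n| ≤ C
  /-- The area of the Multibrot set. -/
  multibrot : |n * (Real.pi - area (multibrotSet n)) - mainTerm n| ≤ C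
  /-- The area of its hyperbolic part. -/
  hyper : |n * (Real.pi - area (hyperbolic n)) - mainTerm n| ≤ C

theorem Estimates.mono {n : ℕ} {C C' : ℝ} (h : Estimates n C) (hC : C ≤ C') : Estimates n C' :=
  ⟨fun k hk a b h1 h2 h3 h4 j h5 h6 => (h.periods k hk a b h1 h2 h3 h4 j h5 h6).trans hC,
    fun k hk a b h1 h2 h3 h4 => (h.escape k hk a b h1 h2 h3 h4).trans hC,
    fun k hk a b h1 h2 h3 h4 => (h.rest k hk a b h1 h2 h3 h4).trans hC,
    fun k hk => (h.total k hk).trans hC, h.multibrot.trans hC, h.hyper.trans hC⟩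

open Pool.Agent.N228.AZ in
/-- The estimates for large `n`. -/
theorem large : ∃ C : ℝ, ∀ᶠ n : ℕ in atTop, Estimates n C := by
  have hAVG : P_AVG := Pool.Agent.N951.AZ.main_AVG
  have hLIN : P_LIN := Pool.Agent.N951.AZ.main_LIN
  have hW : P_WAVG := Pool.Agent.N490.AZ.Wavg.main
  have hROT : P_ROT := Pool.Agent.N849.AZR.main
  have hRAD : P_RAD := rad_main
  have hANU : P_ANU2 := Pool.Agent.N547.AZ.Anu2.main
  have hESC : P_ESC := Pool.Agent.N42.AZ.esc
  have hMEAS : P_MEAS := Pool.Agent.N498.AZ.main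
  have hMAIN : P_MAIN2 := Pool.Agent.N547.AZ.Main2.main
  have hLL : P_LL := ll hAVG hLIN hW hROT hRAD hANU
  have hSS : P_SS := ss hAVG hLIN hW hROT hRAD hANU hESC
  have hL : P_L := lower_L hLL
  have hS : P_S := lower_S hSS
  obtain ⟨C₁, hC₁, h1⟩ := Pool.Agent.N547.AZ.ToLoc.main hMEAS hANU hLL hSS
  obtain ⟨C₂, hC₂, h2⟩ := Pool.Agent.N547.AZ.ToU1.main hMEAS hANU hL hS
  obtain ⟨C₃, hC₃, h3⟩ := Pool.Agent.N547.AZ.ToU2.main hMEAS hANU hMAIN hL hS
  refine ⟨C₁ + C₂ + C₃, ?_⟩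
  filter_upwards [h1, h2, h3] with n h1 h2 h3
  have e1 : C₁ ≤ C₁ + C₂ + C₃ := by linarith
  have e2 : C₂ ≤ C₁ + C₂ + C₃ := by linarith
  have e3 : C₃ ≤ C₁ + C₂ + C₃ := by linarith
  exact ⟨fun k hk a b a1 a2 a3 a4 j a5 a6 => ((h1 k hk a b a1 a2 a3 a4).1 j a5 a6).trans e1,
    fun k hk a b a1 a2 a3 a4 => (h1 k hk a b a1 a2 a3 a4).2.1.trans e1,
    fun k hk a b a1 a2 a3 a4 => (h1 k hk a b a1 a2 a3 a4).2.2.trans e1,
    fun k hk => (h2 k hk).trans e2, h3.1.trans e3, h3.2.trans e3⟩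

theorem area_le {n : ℕ} (hn : 2 ≤ n) {S : Set ℂ}
    (hS : S ⊆ {c : ℂ | Pool.Agent.W747.MB.Y n c ≤ 2 * n}) :
    0 ≤ area S ∧ area S ≤ area {c : ℂ | Pool.Agent.W747.MB.Y n c ≤ 2 * n} :=
  ⟨ENNReal.toReal_nonneg, ENNReal.toReal_mono (Pool.Agent.N228.AZ.Y_fin hn) (measure_mono hS)⟩

theorem ell_bounds (k n : ℕ) : 0 ≤ ell k n ∧ ell k n ≤ n :=
  ⟨Pool.Agent.N228.AZ.plog_it_nonneg (Nat.cast_nonneg n) k,
    Pool.Agent.N228.AZ.plog_it_le (Nat.cast_nonneg n) (Nat.zero_le k)⟩

/-- The estimates for a single `n` are trivial. -/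
theorem single {n : ℕ} (hn : 2 ≤ n) : ∃ C : ℝ, Estimates n C := by
  have hn' : (2:ℝ) ≤ n := by exact_mod_cast hn
  have hn0 : (0:ℝ) < n := by linarith
  have hπ := Real.pi_pos
  set B : ℝ := area {c : ℂ | Pool.Agent.W747.MB.Y n c ≤ 2 * n} with hB
  have hB0 : 0 ≤ B := ENNReal.toReal_nonneg
  have hM : multibrotSet n ⊆ {c : ℂ | Pool.Agent.W747.MB.Y n c ≤ 2 * n} := by
    intro c hc
    have h := Pool.Agent.H749R2.Hyp.t_le_two hn hc
    show (n:ℝ) * ‖c‖ ^ (n - 1) ≤ 2 * n
    nlinarith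
  have hH : hyperbolic n ⊆ multibrotSet n := by
    rintro c ⟨m, z, hz⟩
    exact Pool.Agent.TH363.CD.mem_multibrot hn hz
  have hA : ∀ a b : ℝ, b ≤ n → Ann n a b ⊆ {c : ℂ | Pool.Agent.W747.MB.Y n c ≤ 2 * n} := by
    rintro a b hb c ⟨h1, h2⟩
    show (n:ℝ) * ‖c‖ ^ (n - 1) ≤ 2 * n
    linarith
  have hE : ∀ j : ℕ, Exact n (j + 1) ⊆ {c : ℂ | Pool.Agent.W747.MB.Y n c ≤ 2 * n} := by
    rintro j c ⟨z, hz, -⟩
    exact hM (Pool.Agent.TH363.CD.mem_multibrot hn hz)
  have hlog : ∀ a b : ℝ, 1 / 3 ≤ a → a ≤ b → b ≤ n → 0 ≤ Real.log (b / a) ∧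
      Real.log (b / a) ≤ 3 * n := by
    intro a b h1 h2 h3
    have ha0 : 0 < a := by linarith
    have hb0 : 0 < b := by linarith
    refine ⟨Real.log_nonneg (by rw [le_div_iff₀ ha0]; linarith), ?_⟩
    refine (Real.log_le_self (by positivity)).trans ?_
    rw [div_le_iff₀ ha0]
    nlinarith
  have hb : ∀ {k : ℕ} {b : ℝ}, b ≤ ell (k - 1) n → b ≤ n := fun h => h.trans (ell_bounds _ _).2
  have hpow : ∀ j : ℕ, (0:ℝ) < (1 / 2) ^ j ∧ ((1:ℝ) / 2) ^ j ≤ 1 := fun j =>
    ⟨by positivity, pow_le_one₀ (by norm_num) (by norm_num)⟩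
  have hmain : ∀ (S : Set ℂ), S ⊆ {c : ℂ | Pool.Agent.W747.MB.Y n c ≤ 2 * n} → ∀ j : ℕ, ∀ t : ℝ,
      0 ≤ t → t ≤ 3 * n →
      |n * area S - 2 * Real.pi * (1 / 2) ^ j * t| ≤ n * B + 2 * Real.pi * (3 * n) := by
    intro S hS j t ht0 ht
    obtain ⟨s0, s1⟩ := area_le hn hS
    obtain ⟨p0, p1⟩ := hpow j
    have h1 : 0 ≤ (n:ℝ) * area S := by positivity
    have h2 : (n:ℝ) * area S ≤ n * B := by gcongr
    have h3 : 0 ≤ 2 * Real.pi * (1 / 2) ^ j * t := by positivity
    have h4 : 2 * Real.pi * (1 / 2) ^ j * t ≤ 2 * Real.pi * 1 * (3 * n) := by gcongr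
    rw [abs_le]
    constructor <;> nlinarith
  have htot : ∀ (S : Set ℂ), S ⊆ {c : ℂ | Pool.Agent.W747.MB.Y n c ≤ 2 * n} →
      |n * (Real.pi - area S) - mainTerm n| ≤ n * (Real.pi + B) + |mainTerm n| := by
    intro S hS
    obtain ⟨s0, s1⟩ := area_le hn hS
    have h1 : |n * (Real.pi - area S)| ≤ n * (Real.pi + B) := by
      rw [abs_mul, abs_of_pos hn0]
      gcongr
      rw [abs_le]
      constructor <;> linarith
    exact (abs_sub _ _).trans (by linarith)
  refine ⟨n * B + 2 * Real.pi * (3 * n) + (n * (Real.pi + B) + |mainTerm n|), ?_, ?_, ?_, ?_, ?_,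
    ?_⟩
  · intro k hk a b h1 h2 h3 h4 j h5 h6
    obtain ⟨l0, l1⟩ := hlog a b h1 h3 (hb h4)
    have h7 := hmain (Exact n (j + 1) ∩ Ann n a b) (inter_subset_right.trans (hA a b (hb h4))) j _
      l0 l1
    have : 0 ≤ n * (Real.pi + B) + |mainTerm n| := by positivity
    linarith
  · intro k hk a b h1 h2 h3 h4
    obtain ⟨l0, l1⟩ := hlog a b h1 h3 (hb h4)
    have h7 := hmain (Ann n a b \ multibrotSet n) (sdiff_subset.trans (hA a b (hb h4))) k _
      l0 l1
    have : 0 ≤ n * (Real.pi + B) + |mainTerm n| := by positivity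
    linarith
  · intro k hk a b h1 h2 h3 h4
    obtain ⟨s0, s1⟩ := area_le hn (S := Rest n (k + 1) ∩ Ann n a b)
      (inter_subset_right.trans (hA a b (hb h4)))
    have h7 : (n:ℝ) * area (Rest n (k + 1) ∩ Ann n a b) ≤ n * B := by gcongr
    have : 0 ≤ 2 * Real.pi * (3 * n) + (n * (Real.pi + B) + |mainTerm n|) := by positivity
    linarith
  · intro k hk
    obtain ⟨e0, e1⟩ := ell_bounds k n
    have h7 := hmain (Exact n (k + 1)) (hE k) k (ell k n) e0 (by linarith)
    have : 0 ≤ n * (Real.pi + B) + |mainTerm n| := by positivity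
    linarith
  · have h7 := htot _ hM
    have : 0 ≤ n * B + 2 * Real.pi * (3 * n) := by positivity
    linarith
  · have h7 := htot _ (hH.trans hM)
    have : 0 ≤ n * B + 2 * Real.pi * (3 * n) := by positivity
    linarith

/-- **Theorem.** There is an absolute constant `C` such that for every degree `n ≥ 2`, every
`k ≥ 1` and every annulus `a ≤ n |c| ^ (n - 1) ≤ b` with `ell k n ≤ a ≤ b ≤ ell (k - 1) n` and
`a ≥ 1 / 3`, up to an error of at most `C / n`: the parameters with an attracting cycle of exact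
period `j + 1` have area `2 π 2 ^ (-j) log (b / a) / n` for `1 ≤ j ≤ k`, the parameters outside `M_n`
have area `2 π 2 ^ (-k) log (b / a) / n`, and the parameters of `M_n` without attracting cycle of
period at most `k + 1` have area `0`. Moreover the total area of the parameters with an attracting cycle of exact period `k + 1` is
`2 π 2 ^ (-k) ell k n / n`, and the areas of `M_n` and of its hyperbolic part are both
`π - (2 π log n - ∑ 2 π 2 ^ (-j) ell j n) / n`, with errors of at most `C / n`. -/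
theorem result : ∃ C : ℝ, ∀ n : ℕ, 2 ≤ n → Estimates n C := by
  obtain ⟨C, hC⟩ := large
  rw [eventually_atTop] at hC
  obtain ⟨n₀, hn₀⟩ := hC
  have h1 : ∀ n : ℕ, ∃ D : ℝ, 2 ≤ n → Estimates n D := by
    intro n
    by_cases h : 2 ≤ n
    · obtain ⟨D, hD⟩ := single h
      exact ⟨D, fun _ => hD⟩
    · exact ⟨0, fun h' => absurd h' h⟩
  choose D hD using h1
  refine ⟨|C| + ∑ n ∈ Finset.range n₀, |D n|, fun n hn => ?_⟩
  have h2 : 0 ≤ ∑ n ∈ Finset.range n₀, |D n| := Finset.sum_nonneg fun _ _ => abs_nonneg _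
  rcases le_or_gt n₀ n with h | h
  · exact (hn₀ n h).mono (by
      have := le_abs_self C
      linarith)
  · refine (hD n hn).mono ?_
    have h3 : |D n| ≤ ∑ n ∈ Finset.range n₀, |D n| :=
      Finset.single_le_sum (f := fun n => |D n|) (fun _ _ => abs_nonneg _) (Finset.mem_range.2 h)
    have h4 := le_abs_self (D n)
    have h5 := abs_nonneg C
    linarith

end Pool.Agent.Results.MP_c35c17_an.ZoneDensities
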